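import Pool.Agent.Helper15.UL.GoalsE

/-!
# MP_57a173_lc: packet UL CLO
-/

set_option linter.unusedSectionVars false

noncomputable section

namespace UL

open Pool.Agent.Helper97.Ku NU MeasureTheory

namespace PkCLO

variable {I : Type} [LinearOrder I]

theorem isM_moved {f : Pt I → Pt I} (hf : IsM f) :
    ∃ A : Set I, A.Countable ∧ ∀ z ξ, ξ ∉ A → f z ξ = z ξ := by
  obtain ⟨L, hL⟩ := hf
  obtain ⟨A, hA, hA'⟩ := hL.sup
  refine ⟨A, hA, fun z ξ hξ => ?_⟩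
  apply Y.ext
  intro i
  have h1 := hL.pre z ξ (i + 1)
  rw [hA' ξ hξ] at h1
  have h2 := h1 i (by simp)
  rw [res_get] at h2
  exact h2.symm

theorem bdd_countable (hI : IOrd I) {A : Set I} (hA : A.Countable) : ∃ β, ∀ a ∈ A, a < β := by
  have h1 : Cardinal.mk A ≤ Cardinal.continuum :=
    (Cardinal.le_aleph0_iff_set_countable.2 hA).trans Cardinal.aleph0_le_continuum
  obtain ⟨β, hβ⟩ := hI.bdd A (fun a => (a : I)) h1
  exact ⟨β, fun a ha => hβ ⟨a, ha⟩⟩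

theorem bound_one (hI : IOrd I) {μ : Pt I → Pt I} {Z : Pt I → ℕ → Bool} (hμ : IsM μ)
    (hZ : ∀ n, LC Set.univ (fun z => Z z n)) :
    ∃ β : I, ∀ β', β ≤ β' → MD (Set.Iio β') μ ∧ ∀ n, LC (Set.Iio β') (fun z => Z z n) := by
  obtain ⟨A, hA, hA'⟩ := isM_moved hμ
  choose B hB hBc hB' using hZ
  obtain ⟨β, hβ⟩ := bdd_countable hI (hA.union (Set.countable_iUnion hBc))
  refine ⟨β, fun β' hβ' => ⟨⟨hμ, fun z ξ hξ => ?_⟩, fun n => ?_⟩⟩
  · apply hA'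
    intro hc
    exact hξ (lt_of_lt_of_le (hβ ξ (Or.inl hc)) hβ')
  · refine ⟨B n, fun ξ hξ => ?_, hBc n, hB' n⟩
    exact lt_of_lt_of_le (hβ ξ (Or.inr (Set.mem_iUnion.2 ⟨n, hξ⟩))) hβ'

theorem card_atoms (hI : IOrd I) (ξ : I) :
    Cardinal.mk (ℕ ⊕ ((Set.Iio ξ) × ℕ)) ≤ Cardinal.continuum := by
  rw [Cardinal.mk_sum, Cardinal.mk_prod]
  simp only [Cardinal.lift_id, Cardinal.mk_nat]
  refine Cardinal.add_le_of_le Cardinal.aleph0_le_continuum Cardinal.aleph0_le_continuum ?_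
  exact Cardinal.mul_le_of_le Cardinal.aleph0_le_continuum (hI.card ξ) Cardinal.aleph0_le_continuum

theorem card_seq {P : Type} (h : Cardinal.mk P ≤ Cardinal.continuum) :
    Cardinal.mk (ℕ → P) ≤ Cardinal.continuum := by
  rw [Cardinal.mk_arrow]
  simp only [Cardinal.lift_id, Cardinal.mk_nat]
  calc Cardinal.mk P ^ Cardinal.aleph0 ≤ Cardinal.continuum ^ Cardinal.aleph0 :=
        Cardinal.power_le_power_right h
    _ = Cardinal.continuum := Cardinal.continuum_power_aleph0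

/-- The index set. -/
abbrev KK (ξ : I) : Type :=
  (ℕ → PF (ℕ ⊕ ((Set.Iio ξ) × ℕ))) × {f : Pt I → Pt I // MD (Set.Iio ξ) f}

theorem card_KK (h1 : G_PFC) (h2 : G_MDC) (hI : IOrd I) (ξ : I) :
    Cardinal.mk (KK ξ) ≤ Cardinal.continuum := by
  rw [Cardinal.mk_prod]
  simp only [Cardinal.lift_id]
  exact Cardinal.mul_le_of_le Cardinal.aleph0_le_continuum (card_seq (h1 _ (card_atoms hI ξ)))
    (h2 I (Set.Iio ξ) (isLowerSet_Iio ξ) (hI.card ξ))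

/-- Renaming. -/
abbrev ren (ξ : I) (c : PF (ℕ ⊕ ((Set.Iio ξ) × ℕ))) : PF (ℕ ⊕ (I × ℕ)) :=
  c.map (Sum.map id (fun p : (Set.Iio ξ) × ℕ => ((p.1 : I), p.2)))

theorem thm : UL.G_PFC → UL.G_MDC → UL.G_COD → UL.G_CDP → UL.G_CLO := by
  intro hPFC hMDC hCOD hCDP I _ _ hI R hR
  choose μ Z hμ hZ hRR using hR
  choose bd hbd using fun T lam (h : IsM lam) => bound_one hI (hμ T lam h) (hZ T lam h)
  have hnx : ∀ ξ : I, ∃ β : I, ∀ k : KK ξ, bd (fun j => ren ξ (k.1 j)) k.2.1 k.2.2.1 < β :=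
    fun ξ => hI.bdd (KK ξ) _ (card_KK hPFC hMDC hI ξ)
  choose nx hnx using hnx
  obtain ⟨β₀, -⟩ := hI.bdd Empty (fun e => e.elim) (by simp)
  obtain ⟨α, -, hα, hcl⟩ := hI.clo β₀ nx
  refine ⟨α, fun lam hlam S hS => ?_⟩
  obtain ⟨A₀, hA₀, hA₀'⟩ := isM_moved hlam.1
  choose A hA hA' using fun j => hCDP.1 I (S j) (hS j).1
  have hA'' : ∀ j, DepD (A j ∩ Set.Iio α) (S j) := fun j =>
    hCDP.2.1 I (A j) (Set.Iio α) (S j) (hA' j) (hS j).2
  obtain ⟨ξ, hξα, hξ⟩ := hcl ((A₀ ∩ Set.Iio α) ∪ ⋃ j, (A j ∩ Set.Iio α))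
    ((hA₀.mono Set.inter_subset_left).union
      (Set.countable_iUnion fun j => (hA j).mono Set.inter_subset_left))
    (by
      rintro a (ha | ha)
      · exact ha.2
      · obtain ⟨j, hj⟩ := Set.mem_iUnion.1 ha
        exact hj.2)
  have hMD : MD (Set.Iio ξ) lam := by
    refine ⟨hlam.1, fun z η hη => ?_⟩
    by_cases h : η ∈ A₀
    · by_cases h' : η ∈ Set.Iio α
      · exact absurd (hξ η (Or.inl ⟨h, h'⟩)) hη
      · exact hlam.2 z η h'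
    · exact hA₀' z η h
  have hDep : ∀ j, DepD (Set.Iio ξ) (S j) := by
    intro j x z z' hz
    refine hA'' j x z z' fun η hη => hz η ?_
    exact hξ η (Or.inr (Set.mem_iUnion.2 ⟨j, hη⟩))
  choose c hc using fun j => hCOD.1 I (Set.Iio ξ) (S j) (hS j).1 (hDep j)
  have hlt : bd (fun j => ren ξ (c j)) lam hMD.1 < α :=
    (hnx ξ (c, ⟨lam, hMD⟩)).trans (hα ξ hξα)
  refine ⟨fun j => ren ξ (c j), hc, μ (fun j => ren ξ (c j)) lam hMD.1,
    Z (fun j => ren ξ (c j)) lam hMD.1, ?_, ?_, hRR _ _ _⟩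
  · exact (hbd _ _ _ α hlt.le).1
  · exact (hbd _ _ _ α hlt.le).2

end PkCLO

end UL
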