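import Pool.Agent.Helper15.UL.GoalsA

/-!
# MP_57a173_lc: packet UL INF
-/

set_option linter.unusedSectionVars false

noncomputable section

namespace UL

namespace PkINF

/-- Equality of two members of `Y` from common initial segments. -/
theorem Y_ext_pre {x y : Y} (h : ∀ n, ∃ σ : Str, n ≤ σ.length ∧ Pre σ x ∧ Pre σ y) : x = y := by
  apply Y.ext
  intro i
  obtain ⟨σ, h1, h2, h3⟩ := h (i + 1)
  rw [← h2 i (by omega), ← h3 i (by omega)]

/-- The function on strings acting at `ε`. -/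
def G (a : ℕ → Str) (R : ℕ → Str → Str) : ℕ → Str → Str
  | i, [] => a i
  | i, false :: σ => G a R (i + 1) σ
  | i, true :: σ => a i ++ true :: R i σ

theorem G_zs (a : ℕ → Str) (R : ℕ → Str → Str) (k i : ℕ) (σ : Str) :
    G a R i (zs k ++ true :: σ) = a (i + k) ++ true :: R (i + k) σ := by
  induction k generalizing i with
  | zero => simp [zs, G]
  | succ k ih =>
    have e : zs (k + 1) ++ true :: σ = false :: (zs k ++ true :: σ) := by
      simp [zs, List.replicate_succ]
    rw [e, G, ih]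
    have e2 : i + 1 + k = i + (k + 1) := by omega
    rw [e2]

theorem G_isL (a : ℕ → Str) (R : ℕ → Str → Str) (ha : ∀ i, ∃ j, a (i + 1) = a i ++ false :: zs j)
    (hR : ∀ i, IsL (R i)) (hR0 : ∀ i, ∃ j, R i [] = zs j) (σ : Str) (b : Bool) :
    ∀ i, ∃ j, G a R i (σ ++ [b]) = G a R i σ ++ b :: zs j := by
  induction σ with
  | nil =>
    intro i
    cases b with
    | false => exact ha i
    | true =>
      obtain ⟨j, hj⟩ := hR0 i
      refine ⟨j, ?_⟩
      show a i ++ true :: R i [] = a i ++ true :: zs j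
      rw [hj]
  | cons c σ ih =>
    intro i
    cases c with
    | false => exact ih (i + 1)
    | true =>
      obtain ⟨j, hj⟩ := hR i σ b
      refine ⟨j, ?_⟩
      show a i ++ true :: R i (σ ++ [b]) = (a i ++ true :: R i σ) ++ b :: zs j
      rw [hj]
      simp

theorem lead_uniq {y : ℕ → Bool} {a b : ℕ} (ha : Pre (zs a ++ [true]) y)
    (hb : Pre (zs b ++ [true]) y) : a = b := by
  have key : ∀ {a b : ℕ}, Pre (zs a ++ [true]) y → Pre (zs b ++ [true]) y → ¬ a < b := by
    intro a b ha hb hlt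
    have h1 := ha a (by simp)
    have h2 := hb a (by simp; omega)
    rw [List.getElem_append_right (by simp)] at h1
    rw [List.getElem_append_left (by simpa using hlt)] at h2
    simp at h1 h2
    rw [h1] at h2
    exact absurd h2 (by simp)
  have h1 := key ha hb
  have h2 := key hb ha
  omega

theorem exists_fo : ∃ fo : Y → ℕ, ∀ y : Y, Pre (zs (fo y) ++ [true]) y := by
  classical
  have h : ∀ y : Y, ∃ k, Pre (zs k ++ [true]) y := by
    intro y
    have hy : ∃ m, y.1 m = true := by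
      obtain ⟨m, -, hm⟩ := y.2 0
      exact ⟨m, hm⟩
    refine ⟨Nat.find hy, ?_⟩
    intro i hi
    have hi' : i < Nat.find hy + 1 := by simpa using hi
    rcases Nat.lt_or_ge i (Nat.find hy) with h1 | h1
    · rw [List.getElem_append_left (by simpa using h1)]
      have h2 := Nat.find_min hy h1
      have h3 : y.1 i = false := by simpa using h2
      rw [h3]; simp
    · have h2 : i = Nat.find hy := by omega
      subst h2
      rw [List.getElem_append_right (by simp)]
      have h3 := Nat.find_spec hy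
      rw [h3]; simp
  choose fo hfo using h
  exact ⟨fo, hfo⟩

variable {I : Type} [LinearOrder I]

theorem fo_LC {fo : Y → ℕ} (hfo : ∀ y : Y, Pre (zs (fo y) ++ [true]) y) (ε : I) {D : Set I}
    (hD : ε ∈ D) : LC D (fun z : Pt I => fo (z ε)) := by
  refine ⟨{ε}, by simpa using hD, Set.countable_singleton ε, fun z => ⟨{ε}, by simp,
    fo (z ε) + 1, fun z' hz' => ?_⟩⟩
  apply lead_uniq (hfo (z' ε))
  intro i hi
  have h1 := hz' ε (by simp) i (by simpa using hi)
  rw [h1]
  exact hfo (z ε) i hi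

/-- Membership in a cone is locally constant. -/
theorem mem_LC (τ : I → Str) (hτ : (Sp τ).Finite) (z : Pt I) : ∃ F : Finset I,
    (F : Set I) ⊆ Sp τ ∧ ∃ n : ℕ, ∀ z' : Pt I, (∀ ξ ∈ F, ∀ i, i < n → z' ξ i = z ξ i) →
      (z' ∈ B τ ↔ z ∈ B τ) := by
  classical
  refine ⟨hτ.toFinset, by simp, hτ.toFinset.sup (fun ξ => (τ ξ).length), fun z' hz' => ?_⟩
  have key : ∀ z z' : Pt I, (∀ ξ ∈ hτ.toFinset, ∀ i,
      i < hτ.toFinset.sup (fun ξ => (τ ξ).length) → z' ξ i = z ξ i) → z ∈ B τ → z' ∈ B τ := by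
    intro z z' hz' hz ξ
    by_cases hξ : ξ ∈ Sp τ
    · intro i hi
      have h1 := hz' ξ (by simpa using hξ) i (lt_of_lt_of_le hi
        (Finset.le_sup (f := fun ξ => (τ ξ).length) (by simpa using hξ)))
      rw [h1]; exact hz ξ i hi
    · have : τ ξ = [] := by simpa [Sp] using hξ
      rw [this]; exact pre_nil _
  exact ⟨key z' z fun ξ hξ i hi => (hz' ξ hξ i hi).symm, key z z' hz'⟩

theorem exists_lf {D : Set I} {τ : ℕ → I → Str} {m : ℕ → ℕ}
    (hτ : ∀ l, (Sp (τ l)).Finite ∧ Sp (τ l) ⊆ D)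
    (h : ∀ z N, ∃ l, z ∈ B (τ l) ∧ N ≤ m l) :
    ∃ lf : ℕ → Pt I → ℕ, (∀ N z, z ∈ B (τ (lf N z)) ∧ N ≤ m (lf N z)) ∧
      ∀ N, LC D (lf N) := by
  classical
  refine ⟨fun N z => Nat.find (h z N), fun N z => Nat.find_spec (h z N), fun N => ?_⟩
  choose F hF n hn using fun l (z : Pt I) => mem_LC (τ l) (hτ l).1 z
  refine ⟨⋃ l, Sp (τ l), Set.iUnion_subset fun l => (hτ l).2,
    Set.countable_iUnion fun l => (hτ l).1.countable, fun z => ?_⟩
  refine ⟨(Finset.range (Nat.find (h z N) + 1)).biUnion (fun l => F l z), ?_,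
    (Finset.range (Nat.find (h z N) + 1)).sup (fun l => n l z), fun z' hz' => ?_⟩
  · intro ξ hξ
    rw [Finset.mem_coe, Finset.mem_biUnion] at hξ
    obtain ⟨l, -, hl⟩ := hξ
    exact Set.mem_iUnion.2 ⟨l, hF l z hl⟩
  · have key : ∀ l, l ≤ Nat.find (h z N) → (z' ∈ B (τ l) ↔ z ∈ B (τ l)) := by
      intro l hl
      have hl' : l ∈ Finset.range (Nat.find (h z N) + 1) := Finset.mem_range.2 (by omega)
      refine hn l z z' fun ξ hξ i hi => hz' ξ (Finset.mem_biUnion.2 ⟨l, hl', hξ⟩) i ?_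
      exact lt_of_lt_of_le hi (Finset.le_sup (f := fun l => n l z) hl')
    show Nat.find (h z' N) = Nat.find (h z N)
    rw [Nat.find_eq_iff]
    refine ⟨⟨(key _ le_rfl).2 (Nat.find_spec (h z N)).1, (Nat.find_spec (h z N)).2⟩,
      fun l hl hc => ?_⟩
    exact Nat.find_min (h z N) hl ⟨(key l hl.le).1 hc.1, hc.2⟩

/-- The sequence of the indices. -/
def ls (m : ℕ → ℕ) (lf : ℕ → Pt I → ℕ) : ℕ → Pt I → ℕ
  | 0, z => lf 0 z
  | i + 1, z => lf (m (ls m lf i z) + 1) z

theorem ls_LC {D : Set I} {m : ℕ → ℕ} {lf : ℕ → Pt I → ℕ} (h : ∀ N, LC D (lf N)) (i : ℕ) :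
    LC D (ls m lf i) := by
  induction i with
  | zero => exact h 0
  | succ i ih => exact LC.bind (g := fun l z => lf (m l + 1) z) ih fun l => h (m l + 1)

theorem strip_LC {D : Set I} {β : Type} {k : Pt I → β} (hk : LC D k) (κ : I → Str) :
    LC D (fun z => k (strip κ z)) := by
  obtain ⟨A, hA, hc, h⟩ := hk
  refine ⟨A, hA, hc, fun z => ?_⟩
  obtain ⟨F, hF, n, hn⟩ := h (strip κ z)
  refine ⟨F, hF, n + F.sup (fun ξ => (κ ξ).length), fun z' hz' => hn _ fun ξ hξ i hi => ?_⟩
  show dropY (κ ξ).length (z' ξ) i = dropY (κ ξ).length (z ξ) i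
  rw [dropY_coe, dropY_coe]
  have h1 : (κ ξ).length ≤ F.sup (fun ξ => (κ ξ).length) :=
    Finset.le_sup (f := fun ξ => (κ ξ).length) hξ
  exact hz' ξ hξ _ (by omega)

open Classical in
/-- The cone combining `τ` and `0^i 1` at `ε`. -/
def kap (ε : I) (τ : I → Str) (i : ℕ) : I → Str := fun η => if η = ε then zs i ++ [true] else τ η

theorem kap_same (ε : I) (τ : I → Str) (i : ℕ) : kap ε τ i ε = zs i ++ [true] := by simp [kap]

theorem kap_ne {ε ξ : I} (τ : I → Str) (i : ℕ) (h : ξ ≠ ε) : kap ε τ i ξ = τ ξ := by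
  simp [kap, h]

theorem zs_add_cons (a b : ℕ) (h : a < b) : ∃ j, zs b = zs a ++ false :: zs j := by
  refine ⟨b - a - 1, ?_⟩
  have e : b = a + (1 + (b - a - 1)) := by omega
  conv_lhs => rw [e]
  simp only [zs, List.replicate_add]
  rfl

open Classical in
/-- The system of maps of strings. -/
def LL (ε : I) (τ : ℕ → I → Str) (m : ℕ → ℕ) (s : ℕ → Pt I → ℕ) (fo : Y → ℕ)
    (L' : ℕ → I → Pt I → Str → Str) : I → Pt I → Str → Str := fun ξ z σ =>
  if ξ < ε then σ
  else if ξ = ε then G (fun i => zs (m (s i z)))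
    (fun i σ' => L' (s i z) ε (strip (kap ε (τ (s i z)) i) z) σ') 0 σ
  else L' (s (fo (z ε)) z) ξ (strip (kap ε (τ (s (fo (z ε)) z)) (fo (z ε))) z) σ

variable {ε : I} {τ : ℕ → I → Str} {m : ℕ → ℕ} {s : ℕ → Pt I → ℕ} {fo : Y → ℕ}
  {L' : ℕ → I → Pt I → Str → Str}

theorem LL_lt {ξ : I} (h : ξ < ε) (z : Pt I) (σ : Str) : LL ε τ m s fo L' ξ z σ = σ := by
  simp [LL, h]

theorem LL_eq (z : Pt I) (σ : Str) : LL ε τ m s fo L' ε z σ = G (fun i => zs (m (s i z)))
    (fun i σ' => L' (s i z) ε (strip (kap ε (τ (s i z)) i) z) σ') 0 σ := by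
  simp [LL]

theorem LL_gt {ξ : I} (h : ε < ξ) (z : Pt I) (σ : Str) : LL ε τ m s fo L' ξ z σ =
    L' (s (fo (z ε)) z) ξ (strip (kap ε (τ (s (fo (z ε)) z)) (fo (z ε))) z) σ := by
  have h1 : ¬ ξ < ε := not_lt.2 h.le
  have h2 : ξ ≠ ε := h.ne'
  simp [LL, h1, h2]

/-- local constancy of the function at `ε` -/
theorem G_LC {D : Set I} (hD : D = Set.Iio ε) {φ : ℕ → Pt I → Pt I}
    (hs : ∀ i, LC D (s i)) (hL : ∀ l, IsRep (L' l) (φ l)) (σ : Str) :
    ∀ i, LC D (fun z => G (fun i => zs (m (s i z)))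
      (fun i σ' => L' (s i z) ε (strip (kap ε (τ (s i z)) i) z) σ') i σ) := by
  subst hD
  induction σ with
  | nil => intro i; exact (hs i).map fun l => zs (m l)
  | cons b σ ih =>
    intro i
    cases b with
    | false => exact ih (i + 1)
    | true =>
      have h1 : LC (Set.Iio ε) (fun z => L' (s i z) ε (strip (kap ε (τ (s i z)) i) z) σ) :=
        LC.bind (g := fun l z => L' l ε (strip (kap ε (τ l) i) z) σ) (hs i)
          fun l => strip_LC ((hL l).lc ε σ) _
      exact (hs i).map₂ h1 fun l t => zs (m l) ++ true :: t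

/-- The system of maps of strings is a representation of a map. -/
theorem LL_rep {φ : ℕ → Pt I → Pt I} (hfo : ∀ y : Y, Pre (zs (fo y) ++ [true]) y)
    (hs : ∀ i, LC (Set.Iio ε) (s i)) (hsm : ∀ i z, m (s i z) < m (s (i + 1) z))
    (hL : ∀ l, IsRep (L' l) (φ l)) (hL0 : ∀ l z, ∃ j, L' l ε z [] = zs j) :
    ∃ Φ, IsRep (LL ε τ m s fo L') Φ := by
  refine exists_rep ?_ ?_ ?_
  · intro ξ z
    rcases lt_trichotomy ξ ε with h | h | h
    · have e : LL ε τ m s fo L' ξ z = fun σ => σ := funext fun σ => LL_lt h z σ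
      rw [e]; exact IsL.id
    · subst h
      intro σ b
      rw [LL_eq, LL_eq]
      refine G_isL _ _ ?_ ?_ ?_ σ b 0
      · intro i
        exact zs_add_cons _ _ (hsm i z)
      · intro i
        exact (hL _).isL ξ _
      · intro i
        exact hL0 _ _
    · have e : LL ε τ m s fo L' ξ z =
          L' (s (fo (z ε)) z) ξ (strip (kap ε (τ (s (fo (z ε)) z)) (fo (z ε))) z) :=
        funext fun σ => LL_gt h z σ
      rw [e]; exact (hL _).isL ξ _
  · intro ξ σ
    rcases lt_trichotomy ξ ε with h | h | h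
    · have e : (fun z => LL ε τ m s fo L' ξ z σ) = fun _ => σ := funext fun z => LL_lt h z σ
      rw [e]; exact LC.const _
    · subst h
      have e : (fun z => LL ξ τ m s fo L' ξ z σ) = fun z => G (fun i => zs (m (s i z)))
        (fun i σ' => L' (s i z) ξ (strip (kap ξ (τ (s i z)) i) z) σ') 0 σ :=
        funext fun z => LL_eq z σ
      rw [e]
      exact G_LC rfl hs hL σ 0
    · have e : (fun z => LL ε τ m s fo L' ξ z σ) = fun z =>
        L' (s (fo (z ε)) z) ξ (strip (kap ε (τ (s (fo (z ε)) z)) (fo (z ε))) z) σ :=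
        funext fun z => LL_gt h z σ
      rw [e]
      have hε : ε ∈ Set.Iio ξ := h
      have hsub : Set.Iio ε ⊆ Set.Iio ξ := Set.Iio_subset_Iio h.le
      have h1 : LC (Set.Iio ξ) (fun z : Pt I => fo (z ε)) := fo_LC hfo ε hε
      have h2 : LC (Set.Iio ξ) (fun z : Pt I => (fo (z ε), s (fo (z ε)) z)) :=
        h1.prod (LC.bind (g := fun i z => s i z) h1 fun i => (hs i).mono hsub)
      exact LC.bind (g := fun (p : ℕ × ℕ) z => L' p.2 ξ (strip (kap ε (τ p.2) p.1) z) σ) h2
        fun p => strip_LC ((hL p.2).lc ξ σ) _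
  · choose A hA hA' using fun l => (hL l).sup
    refine ⟨{ε} ∪ ⋃ l, A l, (Set.countable_singleton ε).union (Set.countable_iUnion hA),
      fun ξ hξ z σ => ?_⟩
    have hξ1 : ξ ≠ ε := fun hc => hξ (Or.inl hc)
    have hξ2 : ∀ l, ξ ∉ A l := fun l hc => hξ (Or.inr (Set.mem_iUnion.2 ⟨l, hc⟩))
    rcases lt_trichotomy ξ ε with h | h | h
    · exact LL_lt h z σ
    · exact absurd h hξ1
    · rw [LL_gt h]; exact hA' _ ξ (hξ2 _) _ _

theorem thm : UL.G_INF := by
  intro I _ ε τ m φ hτ hcov hφ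
  obtain ⟨lf, hlf, hlfLC⟩ := exists_lf (D := Set.Iio ε) hτ hcov
  obtain ⟨fo, hfo⟩ := exists_fo
  choose L' hL using fun l => (hφ l).1.1
  have hL0 : ∀ l z, ∃ j, L' l ε z [] = zs j := by
    intro l z
    obtain ⟨j, hj⟩ := (hφ l).2.rep (hL l) (ξ := ε) (z := z) (σ := []) (by simp [q1_same])
    exact ⟨j, by simpa using hj⟩
  have hs : ∀ i, LC (Set.Iio ε) (ls m lf i) := ls_LC hlfLC
  have hsm : ∀ i z, m (ls m lf i z) < m (ls m lf (i + 1) z) := fun i z =>
    (hlf (m (ls m lf i z) + 1) z).2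
  have hsB : ∀ i z, z ∈ B (τ (ls m lf i z)) := by
    intro i z
    cases i with
    | zero => exact (hlf 0 z).1
    | succ i => exact (hlf (m (ls m lf i z) + 1) z).1
  have hτε : ∀ l ξ, ε ≤ ξ → τ l ξ = [] := by
    intro l ξ hξ
    by_contra hc
    have h1 : ξ < ε := (hτ l).2 hc
    exact absurd h1 (not_lt.2 hξ)
  obtain ⟨Φ, hΦ⟩ := LL_rep (τ := τ) (m := m) (s := ls m lf) hfo hs hsm hL hL0
  have hlow : ∀ z ξ, ξ < ε → Φ z ξ = z ξ := by
    intro z ξ hξ
    apply Y_ext_pre
    intro n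
    refine ⟨res (z ξ) n, by simp, ?_, pre_res _ _⟩
    have := hΦ.pre z ξ n
    rwa [LL_lt hξ] at this
  refine ⟨Φ, ⟨⟨_, hΦ⟩, fun z ξ hξ => hlow z ξ hξ⟩, ⟨_, hΦ, fun ξ z σ hσ => ?_⟩, ?_⟩
  · by_cases h : ξ = ε
    · subst h
      rw [q1_same] at hσ
      have h0 : σ = [] := List.length_eq_zero_iff.1 (by omega)
      subst h0
      refine ⟨m (ls m lf 0 z), ?_⟩
      rw [LL_eq]; rfl
    · rw [q1_ne 1 h] at hσ; omega
  · have hc : LC Set.univ (fun z : Pt I => (fo (z ε), ls m lf (fo (z ε)) z)) := by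
      have h1 : LC (Set.univ : Set I) (fun z : Pt I => fo (z ε)) := fo_LC hfo ε (Set.mem_univ ε)
      exact h1.prod (LC.bind (g := fun i z => ls m lf i z) h1
        fun i => (hs i).mono (Set.subset_univ _))
    obtain ⟨A, -, hA, hcone⟩ := LC_iff.1 hc
    refine ⟨A ∪ ({ε} ∪ ⋃ l, Sp (τ l)), hA.union ((Set.countable_singleton ε).union
      (Set.countable_iUnion fun l => (hτ l).1.countable)), fun z => ?_⟩
    obtain ⟨τ0, hf0, hS0, hz0, hconst⟩ := hcone z
    have hKB : z ∈ B (kap ε (τ (ls m lf (fo (z ε)) z)) (fo (z ε))) := by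
      intro ξ
      by_cases h : ξ = ε
      · subst h; rw [kap_same]; exact hfo _
      · rw [kap_ne _ _ h]; exact hsB _ z ξ
    obtain ⟨ρ, t0, lam, hρz, hρor, hρ0, hρlam⟩ := cone_inter hz0 hKB
    have hKSp : Sp (kap ε (τ (ls m lf (fo (z ε)) z)) (fo (z ε))) ⊆
        {ε} ∪ Sp (τ (ls m lf (fo (z ε)) z)) := by
      intro ξ hξ
      by_cases h : ξ = ε
      · exact Or.inl h
      · refine Or.inr ?_
        intro hc'
        apply hξ
        rw [kap_ne _ _ h]; exact hc'
    have hρSp : Sp ρ ⊆ Sp τ0 ∪ ({ε} ∪ Sp (τ (ls m lf (fo (z ε)) z))) := by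
      intro ξ hξ
      rcases hρor ξ with h | h
      · left; intro hc'; exact hξ (h.trans hc')
      · right; apply hKSp; intro hc'; exact hξ (h.trans hc')
    have hρfin : (Sp ρ).Finite := (hf0.union ((Set.finite_singleton ε).union (hτ _).1)).subset hρSp
    refine ⟨ρ, hρfin, ?_, hρz, ls m lf (fo (z ε)) z, lam, ?_, ?_⟩
    · refine hρSp.trans (Set.union_subset_union hS0 (Set.union_subset_union le_rfl ?_))
      exact Set.subset_iUnion (fun l => Sp (τ l)) _
    · exact hρfin.subset (Sp_of_suffix hρlam)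
    · -- the main equation
      funext w
      obtain ⟨i, hi⟩ : ∃ i, i = fo (z ε) := ⟨_, rfl⟩
      obtain ⟨l, hl⟩ : ∃ l, l = ls m lf (fo (z ε)) z := ⟨_, rfl⟩
      rw [← hl]
      rw [← hl, ← hi] at hρlam
      have hJ : J ρ w = J (kap ε (τ l) i) (J lam w) := by
        have h1 := congrFun (J_comp (kap ε (τ l) i) lam) w
        rw [Function.comp_apply] at h1
        rw [h1]
        congr 1
        funext ξ; exact hρlam ξ
      obtain ⟨v, hv⟩ : ∃ v, v = J lam w := ⟨_, rfl⟩
      rw [← hv] at hJ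
      have hB0 : J ρ w ∈ B τ0 := by
        intro ξ
        refine Pre.mono ?_ (J_mem_B ρ w ξ)
        rw [hρ0 ξ]; exact List.prefix_append _ _
      have hcc := hconst _ hB0
      simp only [Prod.mk.injEq] at hcc
      obtain ⟨c1, c2⟩ := hcc
      rw [c1, ← hi] at c2
      rw [← hi] at c1
      rw [← hi] at hl
      rw [← hl] at c2
      -- now: fo (J ρ w ε) = i, ls i (J ρ w) = l
      simp only [Function.comp_apply]
      rw [← hv]
      have hstrip : strip (kap ε (τ l) i) (J ρ w) = v := by rw [hJ, strip_J]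
      funext ξ
      rcases lt_trichotomy ξ ε with h | h | h
      · rw [hlow _ ξ h, hJ, J_apply, kap_ne _ _ h.ne, J_apply, J_apply, at1_ne _ h.ne, catY_nil,
          (hφ l).1.2 v ξ h]
      · subst h
        rw [J_apply, hτε l ξ le_rfl, catY_nil, J_apply, at1_same]
        apply Y_ext_pre
        intro n
        refine ⟨(zs (m l) ++ [true]) ++ L' l ξ v (res (v ξ) n), ?_, ?_, ?_⟩
        · have := ((hL l).isL ξ v).length_le (res (v ξ) n)
          rw [res_length] at this
          simp only [List.length_append]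
          omega
        · have hp : Pre ((zs i ++ [true]) ++ res (v ξ) n) (J ρ w ξ) := by
            rw [hJ, J_apply, kap_same]
            exact pre_cat_append.2 (pre_res _ _)
          have h1 := hΦ.preσ hp
          rw [LL_eq] at h1
          have e1 : (zs i ++ [true]) ++ res (v ξ) n = zs i ++ true :: res (v ξ) n := by simp
          rw [e1, G_zs] at h1
          simp only [Nat.zero_add] at h1
          rw [c2, hstrip] at h1
          have e2 : (zs (m l) ++ [true]) ++ L' l ξ v (res (v ξ) n) =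
            zs (m l) ++ true :: L' l ξ v (res (v ξ) n) := by simp
          rw [e2]; exact h1
        · exact pre_cat_append.2 ((hL l).pre v ξ n)
      · rw [J_apply, hτε l ξ h.le, catY_nil, J_apply, at1_ne _ h.ne', catY_nil]
        apply Y_ext_pre
        intro n
        refine ⟨L' l ξ v (res (v ξ) n), ?_, ?_, (hL l).pre v ξ n⟩
        · have := ((hL l).isL ξ v).length_le (res (v ξ) n)
          rw [res_length] at this
          exact this
        · have e0 : J ρ w ξ = v ξ := by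
            rw [hJ, J_apply, kap_ne _ _ h.ne', hτε l ξ h.le, catY_nil]
          have h1 := hΦ.pre (J ρ w) ξ n
          rw [LL_gt h, c1, c2, hstrip, e0] at h1
          exact h1

end PkINF

end UL
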